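import Mathlib

set_option autoImplicit false

namespace Pool.Agent.Results.MP_59c536_co.QuadraticClasses

/-- An oriented line of real projective 3-space, given by two points `a` and then `b` in
homogeneous coordinates. -/
abbrev Line : Type := (Fin 4 → ℝ) × (Fin 4 → ℝ)

/-- The Plücker coordinates `π_ij = a_i b_j - a_j b_i`, in the order `01, 02, 03, 12, 13, 23`. -/
noncomputable def plucker (a b : Fin 4 → ℝ) : EuclideanSpace ℝ (Fin 6) :=
  !₂[a 0 * b 1 - a 1 * b 0, a 0 * b 2 - a 2 * b 0, a 0 * b 3 - a 3 * b 0,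
    a 1 * b 2 - a 2 * b 1, a 1 * b 3 - a 3 * b 1, a 2 * b 3 - a 3 * b 2]

/-- The determinant of the four points spanning two lines; its sign is the relative
orientation of the lines. -/
noncomputable def detL (l l' : Line) : ℝ := Matrix.det (Matrix.of ![l.1, l.2, l'.1, l'.2])

/-- The orientation class of `(L, σ)`: the Plücker points, on the unit sphere of `ℝ⁶`, of the
oriented lines with relative orientation `σ i` to the line `L i`, for all `i`. -/
def orientationClass {n : ℕ} (L : Fin n → Line) (σ : Fin n → SignType) :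
    Set (EuclideanSpace ℝ (Fin 6)) :=
  {x | ‖x‖ = 1 ∧ ∃ a b : Fin 4 → ℝ, plucker a b = x ∧
    ∀ i, SignType.sign (detL (a, b) (L i)) = σ i}

/-- The bilinear form. -/
noncomputable def pr (x : EuclideanSpace ℝ (Fin 6)) (l : Line) : ℝ :=
  x 0 * (l.1 2 * l.2 3 - l.1 3 * l.2 2) - x 1 * (l.1 1 * l.2 3 - l.1 3 * l.2 1)
  + x 2 * (l.1 1 * l.2 2 - l.1 2 * l.2 1) + x 3 * (l.1 0 * l.2 3 - l.1 3 * l.2 0)
  - x 4 * (l.1 0 * l.2 2 - l.1 2 * l.2 0) + x 5 * (l.1 0 * l.2 1 - l.1 1 * l.2 0)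

lemma detL_eq (a b : Fin 4 → ℝ) (l : Line) : detL (a, b) l = pr (plucker a b) l := by
  simp only [detL, pr, plucker, Matrix.det_succ_row_zero, Fin.sum_univ_succ]
  simp [Fin.succAbove, Matrix.submatrix]
  ring


/-- Points separated by a nonvanishing function are in different components. -/
lemma components_ne {E : Type*} [TopologicalSpace E] {C : Set E} (w : E → ℝ) (hw : Continuous w)
    (h0 : ∀ x ∈ C, w x ≠ 0) (x y : C) (hx : w x < 0) (hy : 0 < w y) :
    (ConnectedComponents.mk x : ConnectedComponents C) ≠ ConnectedComponents.mk y := by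
  intro h
  have h1 : y ∈ connectedComponent x := by
    have h2 : connectedComponent x = connectedComponent y := ConnectedComponents.coe_eq_coe.1 h
    rw [h2]
    exact mem_connectedComponent
  have hpre : IsPreconnected ((fun z : C => w z) '' connectedComponent x) :=
    isPreconnected_connectedComponent.image _ (hw.comp continuous_subtype_val).continuousOn
  have hoc := hpre.ordConnected
  have hmx : w x ∈ ((fun z : C => w z) '' connectedComponent x) := ⟨x, mem_connectedComponent, rfl⟩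
  have hmy : w y ∈ ((fun z : C => w z) '' connectedComponent x) := ⟨y, h1, rfl⟩
  have hz : (0:ℝ) ∈ ((fun z : C => w z) '' connectedComponent x) :=
    hoc.out hmx hmy ⟨hx.le, hy.le⟩
  obtain ⟨z, _, hz⟩ := hz
  exact h0 z z.2 hz

/-- A closed condition on a compact set that fails for `L0` fails in a neighbourhood. -/
lemma nhds_of_compact {Z E : Type*} [TopologicalSpace Z] [TopologicalSpace E] (K : Set E)
    (hK : IsCompact K) (A : Set (Z × E)) (hA : IsClosed A) (L0 : Z)
    (h0 : ∀ x ∈ K, (L0, x) ∉ A) : ∃ V : Set Z, IsOpen V ∧ L0 ∈ V ∧ ∀ L ∈ V, ∀ x ∈ K, (L, x) ∉ A := by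
  have hcomp : CompactSpace K := isCompact_iff_compactSpace.1 hK
  have hcl : IsClosed ((fun z : Z × K => z.1) '' {z : Z × K | (z.1, (z.2 : E)) ∈ A}) := by
    apply isClosedMap_fst_of_compactSpace
    exact hA.preimage (continuous_fst.prodMk (continuous_subtype_val.comp continuous_snd))
  refine ⟨((fun z : Z × K => z.1) '' {z : Z × K | (z.1, (z.2 : E)) ∈ A})ᶜ, hcl.isOpen_compl, ?_, ?_⟩
  · rintro ⟨z, hz, hz'⟩
    rw [← hz'] at h0
    exact h0 z.2 z.2.2 hz
  · intro L hL x hx hLx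
    exact hL ⟨(L, ⟨x, hx⟩), hLx, rfl⟩

/-- The line through `(1,0,p,q)` and `(0,1,r,t)`. -/
def chart (p q r t : ℝ) : Line := (![1, 0, p, q], ![0, 1, r, t])

lemma pr_chart (x : EuclideanSpace ℝ (Fin 6)) (p q r t : ℝ) :
    pr x (chart p q r t) = x 0 * (p * t - q * r) + x 1 * q - x 2 * p + x 3 * t - x 4 * r + x 5 := by
  simp only [pr, chart, Matrix.cons_val_zero, Matrix.cons_val_one, Matrix.cons_val]
  ring

/-- The index type of the lines. -/
abbrev Idx (K m : ℕ) : Type := Fin (K + 1) ⊕ Fin (m + 1) ⊕ Fin 4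

/-- breakpoints -/
noncomputable def bb (K : ℕ) (i : ℕ) : ℝ := -1/4 + i / (2 * K)

/-- the constant gamma -/
noncomputable def gam (K : ℕ) : ℝ := 1/8 + 3 / (64 * (K:ℝ)^2)

/-- the alternating sign -/
noncomputable def th (c : ℕ) : ℝ := (-1)^c

/-- The configuration of lines. -/
noncomputable def conf (K m : ℕ) (e : ℝ) : Idx K m → Line
  | Sum.inl i => chart 1 (-3 * bb K i) (3 * bb K i) (gam K - (3/2) * (bb K i)^2 - 9 * (bb K i)^2)
  | Sum.inr (Sum.inl c) => chart (-1) (c - th c) (c + th c) ((c:ℝ)^2/2 - (c - th c) * (c + th c))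
  | Sum.inr (Sum.inr 0) => (![0, 0, 1, 0], ![0, 0, 0, 1])
  | Sum.inr (Sum.inr 1) => (![1, 0, e, 0], ![0, 0, 0, 1])
  | Sum.inr (Sum.inr 2) => (![1, 0, -e, 0], ![0, 0, 0, 1])
  | Sum.inr (Sum.inr 3) => chart 0 (10 * (m + 2)) (-(10 * (m + 2))) 0

/-- The signs. -/
def sg (K m : ℕ) : Idx K m → SignType
  | Sum.inl _ => -1
  | Sum.inr (Sum.inl _) => -1
  | Sum.inr (Sum.inr 0) => 1
  | Sum.inr (Sum.inr 1) => 1
  | Sum.inr (Sum.inr 2) => -1
  | Sum.inr (Sum.inr 3) => 1

lemma sg_ne (K m : ℕ) (i : Idx K m) : sg K m i ≠ 0 := by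
  rcases i with i | i | i
  · simp [sg]
  · simp [sg]
  · fin_cases i <;> simp [sg]

/-- The wall functional. -/
noncomputable def wl (w : ℝ) (x : EuclideanSpace ℝ (Fin 6)) : ℝ := x 1 - x 4 - w * x 0

lemma th_sq (c : ℕ) : th c = 1 ∨ th c = -1 := by
  unfold th; exact neg_one_pow_eq_or ℝ c

lemma th_succ (c : ℕ) : th (c + 1) = - th c := by
  unfold th; rw [pow_succ]; ring

lemma bb_bound (K : ℕ) (hK : 1 ≤ K) (i : ℕ) (hi : i ≤ K) : |bb K i| ≤ 1/4 := by
  have hK0 : (0:ℝ) < K := by exact_mod_cast hK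
  have h1 : (i:ℝ) / (2 * K) ≤ 1/2 := by
    rw [div_le_div_iff₀ (by positivity) (by norm_num)]
    have : (i:ℝ) ≤ K := by exact_mod_cast hi
    linarith
  have h2 : 0 ≤ (i:ℝ) / (2 * K) := by positivity
  rw [abs_le]; unfold bb; constructor <;> linarith

lemma wall_real (g b c θ x0 x1 x2 x4 x5 : ℝ) (h0 : 0 < x0) (hθ : θ = 1 ∨ θ = -1)
    (hb : |b| ≤ 1/4) (hg : 0 < g) (hP : x0 * x5 - x1 * x4 = 0)
    (ef : x0 * (1 * ((1/8 + g) - (3/2) * b^2 - 9 * b^2) - -3 * b * (3 * b)) + x1 * (-3 * b) - x2 * 1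
      - x4 * (3 * b) + x5 ≤ 0)
    (eg : x0 * (-1 * (c^2/2 - (c - θ) * (c + θ)) - (c - θ) * (c + θ)) + x1 * (c - θ) - x2 * -1
      - x4 * (c + θ) + x5 ≤ 0)
    (eg' : x0 * (-1 * ((c+1)^2/2 - ((c+1) - -θ) * ((c+1) + -θ)) - ((c+1) - -θ) * ((c+1) + -θ))
      + x1 * ((c+1) - -θ) - x2 * -1 - x4 * ((c+1) + -θ) + x5 ≤ 0)
    (hw : x1 - x4 - (c + 1/2 + 2 * θ * b) * x0 = 0) : False := by
  set w : ℝ := c + 1/2 + 2 * θ * b with hwdef
  obtain ⟨v, hv⟩ : ∃ v : ℝ, v * x0 = -(x1 + x4) := ⟨-(x1 + x4) / x0, by field_simp⟩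
  have hx1 : x1 = (w - v) / 2 * x0 := by linarith
  have hx4 : x4 = -(w + v) / 2 * x0 := by linarith
  have hx5 : x5 = -(w^2 - v^2) / 4 * x0 := by
    have : x0 * x5 = x0 * (-(w^2 - v^2) / 4 * x0) := by
      rw [hx1, hx4] at hP
      linarith
    exact mul_left_cancel₀ h0.ne' this
  rw [hx1, hx4, hx5] at ef eg eg'
  have hθ2 : θ ^ 2 = 1 := by
    rcases hθ with h | h <;> rw [h] <;> norm_num
  have key1 : (g + 4 * b * (v - b) + (v - b)^2/2 + θ * (v - b)) * x0 ≤ 0 := by
    have : (g + 4 * b * (v - b) + (v - b)^2/2 + θ * (v - b)) * x0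
        = (x0 * (1 * ((1/8 + g) - (3/2) * b^2 - 9 * b^2) - -3 * b * (3 * b))
          + (w - v) / 2 * x0 * (-3 * b) - x2 * 1
          - -(w + v) / 2 * x0 * (3 * b) + -(w^2 - v^2) / 4 * x0)
          + (x0 * (-1 * (c^2/2 - (c - θ) * (c + θ)) - (c - θ) * (c + θ))
          + (w - v) / 2 * x0 * (c - θ) - x2 * -1
          - -(w + v) / 2 * x0 * (c + θ) + -(w^2 - v^2) / 4 * x0) + 2 * b^2 * (θ^2 - 1) * x0 := by
      rw [hwdef]; ring
    rw [this, hθ2]; linarith
  have key2 : (g + 4 * b * (v - b) + (v - b)^2/2 - θ * (v - b)) * x0 ≤ 0 := by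
    have : (g + 4 * b * (v - b) + (v - b)^2/2 - θ * (v - b)) * x0
        = (x0 * (1 * ((1/8 + g) - (3/2) * b^2 - 9 * b^2) - -3 * b * (3 * b))
          + (w - v) / 2 * x0 * (-3 * b) - x2 * 1
          - -(w + v) / 2 * x0 * (3 * b) + -(w^2 - v^2) / 4 * x0)
          + (x0 * (-1 * ((c+1)^2/2 - ((c+1) - -θ) * ((c+1) + -θ)) - ((c+1) - -θ) * ((c+1) + -θ))
          + (w - v) / 2 * x0 * ((c+1) - -θ) - x2 * -1
          - -(w + v) / 2 * x0 * ((c+1) + -θ) + -(w^2 - v^2) / 4 * x0)
          + 2 * b^2 * (θ^2 - 1) * x0 := by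
      rw [hwdef]; ring
    rw [this, hθ2]; linarith
  have kk1 := nonpos_of_mul_nonpos_left key1 h0
  have kk2 := nonpos_of_mul_nonpos_left key2 h0
  have hy : |v - b| ≤ - (4 * b * (v - b)) - (v-b)^2/2 - g := by
    rcases hθ with h | h
    · rw [h] at kk1 kk2
      rw [abs_le]; constructor <;> linarith
    · rw [h] at kk1 kk2
      rw [abs_le]; constructor <;> linarith
  have hy2 : - (4 * b * (v - b)) ≤ |v - b| := by
    have h1 : |4 * b * (v - b)| = 4 * |b| * |v - b| := by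
      rw [abs_mul, abs_mul]; norm_num
    have h2 : -(4 * b * (v - b)) ≤ |4 * b * (v - b)| := neg_le_abs _
    rw [h1] at h2
    have h3 : 0 ≤ |v - b| := abs_nonneg _
    nlinarith
  nlinarith [sq_nonneg (v - b)]

/-- The closed class at `e = 0` avoids the walls. -/
lemma wall_empty (K m : ℕ) (hK : 1 ≤ K) (c : ℕ) (hc : c + 1 ≤ m) (i : ℕ) (hi : i ≤ K)
    (x : EuclideanSpace ℝ (Fin 6)) (hx : ‖x‖ = 1) (hP : x 0 * x 5 - x 1 * x 4 + x 2 * x 3 = 0)
    (hs : ∀ j, 0 ≤ ((sg K m j : SignType) : ℝ) * pr x (conf K m 0 j))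
    (hw : wl (c + 1/2 + 2 * th c * bb K i) x = 0) : False := by
  have hK0 : (0:ℝ) < K := by exact_mod_cast hK
  -- the individual constraints
  have e0 := hs (Sum.inr (Sum.inr 0))
  have e1 := hs (Sum.inr (Sum.inr 1))
  have e2 := hs (Sum.inr (Sum.inr 2))
  have e3 := hs (Sum.inr (Sum.inr 3))
  have ef := hs (Sum.inl ⟨i, by omega⟩)
  have eg := hs (Sum.inr (Sum.inl ⟨c, by omega⟩))
  have eg' := hs (Sum.inr (Sum.inl ⟨c + 1, by omega⟩))
  simp only [conf, sg, pr_chart] at e0 e1 e2 e3 ef eg eg'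
  simp only [pr, SignType.coe_one, SignType.coe_neg, one_mul, neg_mul, Matrix.cons_val_zero,
    Matrix.cons_val_one, Matrix.cons_val] at e0 e1 e2 e3 ef eg eg'
  simp only [wl] at hw
  rw [th_succ] at eg'
  push_cast at eg'
  have hx3 : x 3 = 0 := by linarith
  have hx0 : 0 ≤ x 0 := by linarith
  rw [hx3] at ef eg eg' e3 hP
  rcases hx0.lt_or_eq with h0 | h0
  · -- finite part
    refine wall_real (3 / (64 * (K:ℝ)^2)) (bb K i) c (th c) (x 0) (x 1) (x 2) (x 4) (x 5) h0
      (th_sq c) (bb_bound K hK i hi) (by positivity) (by linarith) ?_ (by linarith) (by linarith)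
      hw
    unfold gam at ef
    linarith
  · -- part at infinity
    rw [← h0] at hw hP ef eg e3
    have h14 : x 1 = x 4 := by linarith
    rw [h14] at hP
    have h4 : x 4 = 0 := by nlinarith
    have h1 : x 1 = 0 := by rw [h14, h4]
    rw [h4, h1] at ef eg e3
    have h5 : x 5 = 0 := by linarith
    have h2 : x 2 = 0 := by linarith
    have hzero : x = 0 := by
      ext j
      fin_cases j
      · exact h0.symm
      · exact h1
      · exact h2
      · exact hx3
      · exact h4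
      · exact h5
    rw [hzero, norm_zero] at hx
    exact zero_ne_one hx

/-! ### The points -/

/-- midpoint -/
noncomputable def mb (K i : ℕ) : ℝ := -1/4 + (2 * i + 1) / (4 * K)

/-- u-coordinate -/
noncomputable def uu (K c i : ℕ) : ℝ := c + 1/2 + 2 * th c * mb K i

/-- t-coordinate -/
noncomputable def tt (K c i : ℕ) : ℝ :=
  -(uu K c i)^2/4 + 7/4 * (mb K i)^2 + 1/8 - 3 / (128 * (K:ℝ)^2)

/-- The Plücker vector of the line. -/
noncomputable def pos (K c i : ℕ) : EuclideanSpace ℝ (Fin 6) :=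
  plucker ![1, 0, 0, (uu K c i + mb K i)/2] ![0, 1, (uu K c i - mb K i)/2, tt K c i]

lemma th_parity (c c' : ℕ) : ∃ k : ℤ, ((c':ℝ) = c + 2 * k ∧ th c' = th c) ∨
    ((c':ℝ) = c + 2 * k + 1 ∧ th c' = - th c) := by
  rcases Nat.even_or_odd c with h | h <;> rcases Nat.even_or_odd c' with h' | h'
  · obtain ⟨a, ha⟩ := h
    obtain ⟨b, hb⟩ := h'
    refine ⟨(b:ℤ) - a, Or.inl ⟨?_, ?_⟩⟩
    · rw [ha, hb]; push_cast; ring
    · unfold th
      rw [Even.neg_one_pow ⟨b, hb⟩, Even.neg_one_pow ⟨a, ha⟩]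
  · obtain ⟨a, ha⟩ := h
    obtain ⟨b, hb⟩ := h'
    refine ⟨(b:ℤ) - a, Or.inr ⟨?_, ?_⟩⟩
    · rw [ha, hb]; push_cast; ring
    · unfold th
      rw [Odd.neg_one_pow ⟨b, hb⟩, Even.neg_one_pow ⟨a, ha⟩]
  · obtain ⟨a, ha⟩ := h
    obtain ⟨b, hb⟩ := h'
    refine ⟨(b:ℤ) - a - 1, Or.inr ⟨?_, ?_⟩⟩
    · rw [ha, hb]; push_cast; ring
    · unfold th
      rw [Even.neg_one_pow ⟨b, hb⟩, Odd.neg_one_pow ⟨a, ha⟩]; ring
  · obtain ⟨a, ha⟩ := h
    obtain ⟨b, hb⟩ := h'
    refine ⟨(b:ℤ) - a, Or.inl ⟨?_, ?_⟩⟩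
    · rw [ha, hb]; push_cast; ring
    · unfold th
      rw [Odd.neg_one_pow ⟨b, hb⟩, Odd.neg_one_pow ⟨a, ha⟩]

lemma mb_bound (K : ℕ) (i : ℕ) (hi : i < K) : |mb K i| < 1/4 := by
  have hK0 : (0:ℝ) < K := by
    have : 0 < K := by omega
    exact_mod_cast this
  have h1 : (2 * (i:ℝ) + 1) / (4 * K) < 1/2 := by
    rw [div_lt_div_iff₀ (by positivity) (by norm_num)]
    have : (i:ℝ) + 1 ≤ K := by exact_mod_cast hi
    linarith
  have h2 : 0 < (2 * (i:ℝ) + 1) / (4 * K) := by positivity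
  rw [abs_lt]; unfold mb; constructor <;> linarith

lemma roof (θ θ' v x : ℝ) (k : ℤ) (hθ : θ = 1 ∨ θ = -1) (hx : x = 2 * θ * v) (hv : |v| ≤ 1/4)
    (d : ℝ) (hd : (d = 2 * k ∧ θ' = θ) ∨ (d = 2 * k + 1 ∧ θ' = -θ)) :
    1/8 + 2 * v^2 ≤ (x + 1/2 - d)^2/2 - θ' * v := by
  have hv2 := abs_le.1 hv
  have hxb : -1/2 ≤ x ∧ x ≤ 1/2 := by
    rcases hθ with h | h <;> rw [hx, h] <;> constructor <;> linarith
  have hv3 : θ * v = x/2 := by rw [hx]; ring
  have hv4 : v^2 = x^2/4 := by
    rcases hθ with h | h <;> rw [hx, h] <;> ring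
  rw [hv4]
  have hk : (1:ℝ) ≤ k ∨ (k:ℝ) ≤ 0 := by
    rcases le_or_gt 1 k with h | h
    · left; exact_mod_cast h
    · right
      have : k ≤ 0 := by omega
      exact_mod_cast this
  have hk' : (0:ℝ) ≤ k ∨ (k:ℝ) ≤ -1 := by
    rcases le_or_gt 0 k with h | h
    · left; exact_mod_cast h
    · right
      have : k ≤ -1 := by omega
      exact_mod_cast this
  rcases hd with ⟨h1, h2⟩ | ⟨h1, h2⟩
  · rw [h2, hv3, h1]
    have : 0 ≤ (k:ℝ) * (2 * k - 1 - 2 * x) := by
      rcases hk with h | h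
      · apply mul_nonneg <;> linarith
      · apply mul_nonneg_of_nonpos_of_nonpos <;> linarith
    nlinarith
  · rw [h2, neg_mul, hv3, h1]
    have : 0 ≤ (k:ℝ) * (2 * k + 1 - 2 * x) := by
      rcases hk' with h | h
      · apply mul_nonneg <;> linarith
      · apply mul_nonneg_of_nonpos_of_nonpos <;> linarith
    nlinarith

lemma grid_dist (K : ℕ) (hK : 1 ≤ K) (i j : ℕ) : 1 / (16 * (K:ℝ)^2) ≤ (mb K i - bb K j)^2 := by
  have hK0 : (0:ℝ) < K := by exact_mod_cast hK
  have h1 : mb K i - bb K j = (2 * i + 1 - 2 * j) / (4 * K) := by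
    unfold mb bb; field_simp; ring
  rw [h1, div_pow]
  have h2 : (4 * (K:ℝ))^2 = 16 * (K:ℝ)^2 := by ring
  rw [h2]
  apply div_le_div_of_nonneg_right _ (by positivity)
  have h3 : (1:ℤ) ≤ (2 * i + 1 - 2 * j)^2 := by
    have : (2 * (i:ℤ) + 1 - 2 * j) ≠ 0 := by omega
    have := sq_pos_of_ne_zero this
    omega
  exact_mod_cast h3

lemma pos_strict (K m : ℕ) (hK : 1 ≤ K) (c i : ℕ) (hc : c < m) (hi : i < K) (e : ℝ) (he : 0 < e)
    (j : Idx K m) : 0 < ((sg K m j : SignType) : ℝ) * pr (pos K c i) (conf K m e j) := by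
  have hK0 : (0:ℝ) < K := by exact_mod_cast hK
  have hmb := mb_bound K i hi
  have hmb' := abs_lt.1 hmb
  have e0 : pos K c i 0 = 1 := by simp [pos, plucker]
  have e1 : pos K c i 1 = (uu K c i - mb K i)/2 := by simp [pos, plucker]
  have e2 : pos K c i 2 = tt K c i := by simp [pos, plucker]
  have e3 : pos K c i 3 = 0 := by simp [pos, plucker]
  have e4 : pos K c i 4 = -((uu K c i + mb K i)/2) := by simp [pos, plucker]
  have e5 : pos K c i 5 = -((uu K c i + mb K i)/2 * ((uu K c i - mb K i)/2)) := by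
    simp [pos, plucker]
  have hcm : (c:ℝ) + 1 ≤ m := by exact_mod_cast hc
  have hc0 : (0:ℝ) ≤ c := by positivity
  have huu : uu K c i = c + 1/2 + 2 * th c * mb K i := rfl
  have hub : 0 ≤ uu K c i ∧ uu K c i ≤ m := by
    rw [huu]
    rcases th_sq c with h | h <;> rw [h] <;> constructor <;> linarith
  rcases j with j | j | j
  · simp only [conf, sg, pr_chart, e0, e1, e2, e3, e4, e5]
    simp only [SignType.coe_neg, SignType.coe_one]
    have h1 := grid_dist K hK i j
    have h2 : tt K c i = -(uu K c i)^2/4 + 7/4 * (mb K i)^2 + 1/8 - 3 / (128 * (K:ℝ)^2) := rfl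
    rw [h2]
    have h3 : gam K = 1/8 + 3 / (64 * (K:ℝ)^2) := rfl
    rw [h3]
    have h4 : (3:ℝ) / (64 * (K:ℝ)^2) = 3/4 * (1 / (16 * (K:ℝ)^2)) := by field_simp; norm_num
    have h5 : (3:ℝ) / (128 * (K:ℝ)^2) = 3/8 * (1 / (16 * (K:ℝ)^2)) := by field_simp; norm_num
    have h6 : 0 < 1 / (16 * (K:ℝ)^2) := by positivity
    rw [h4, h5]
    nlinarith
  · simp only [conf, sg, pr_chart, e0, e1, e2, e3, e4, e5]
    simp only [SignType.coe_neg, SignType.coe_one]
    obtain ⟨k, hk⟩ := th_parity c j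
    have h1 := roof (th c) (th j) (mb K i) (2 * th c * mb K i) k (th_sq c) rfl hmb.le
      ((j:ℝ) - c) (by
        rcases hk with h | h
        · left; exact ⟨by linarith [h.1], h.2⟩
        · right; exact ⟨by linarith [h.1], h.2⟩)
    have h2 : tt K c i = -(uu K c i)^2/4 + 7/4 * (mb K i)^2 + 1/8 - 3 / (128 * (K:ℝ)^2) := rfl
    have h3 : 2 * th c * mb K i + 1/2 - ((j:ℝ) - c) = uu K c i - j := by rw [huu]; ring
    rw [h3] at h1
    rw [h2]
    have h6 : 0 < 3 / (128 * (K:ℝ)^2) := by positivity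
    nlinarith
  · fin_cases j
    · simp [conf, sg, pr, e0, e1, e2, e3, e4, e5]
    · simp [conf, sg, pr, e0, e1, e2, e3, e4, e5, he]
    · simp [conf, sg, pr, e0, e1, e2, e3, e4, e5, he]
    · simp only [conf, sg, pr_chart, e0, e1, e2, e3, e4, e5]
      simp only [SignType.coe_one]
      nlinarith [hub.1, hub.2, hmb'.1, hmb'.2]

lemma uu_bounds (K : ℕ) (c i : ℕ) (hi : i < K) : (c:ℝ) < uu K c i ∧ uu K c i < c + 1 := by
  have hmb' := abs_lt.1 (mb_bound K i hi)
  have huu : uu K c i = c + 1/2 + 2 * th c * mb K i := rfl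
  rw [huu]
  rcases th_sq c with h | h <;> rw [h] <;> constructor <;> linarith

/-- Two different points are separated by a wall. -/
lemma exists_wall (K m : ℕ) (hK : 1 ≤ K) (c i c' i' : ℕ) (hc : c < m) (hi : i < K) (hc' : c' < m)
    (hi' : i' < K) (hne : (c, i) ≠ (c', i')) : ∃ c0 i0 : ℕ, c0 < m ∧ i0 ≤ K ∧
      (uu K c i - (c0 + 1/2 + 2 * th c0 * bb K i0)) *
        (uu K c' i' - (c0 + 1/2 + 2 * th c0 * bb K i0)) < 0 := by
  have hK0 : (0:ℝ) < K := by exact_mod_cast hK
  have hb0 : bb K 0 = -1/4 := by unfold bb; simp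
  have hbK : bb K K = 1/4 := by unfold bb; field_simp; norm_num
  -- first the case of different intervals
  have step : ∀ a b i j : ℕ, a < b → a < m → i < K → j < K → ∃ c0 i0 : ℕ, c0 < m ∧ i0 ≤ K ∧
      (uu K a i - (c0 + 1/2 + 2 * th c0 * bb K i0)) *
        (uu K b j - (c0 + 1/2 + 2 * th c0 * bb K i0)) < 0 := by
    intro a b i j hab ha hi hj
    have h1 := (uu_bounds K a i hi).2
    have h2 := (uu_bounds K b j hj).1
    have h3 : (a:ℝ) + 1 ≤ b := by exact_mod_cast hab
    rcases th_sq a with h | h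
    · refine ⟨a, K, ha, le_rfl, ?_⟩
      rw [h, hbK]
      apply mul_neg_of_neg_of_pos <;> linarith
    · refine ⟨a, 0, ha, by omega, ?_⟩
      rw [h, hb0]
      apply mul_neg_of_neg_of_pos <;> linarith
  -- then the same interval
  have step2 : ∀ a i j : ℕ, a < m → i < j → j < K → ∃ c0 i0 : ℕ, c0 < m ∧ i0 ≤ K ∧
      (uu K a i - (c0 + 1/2 + 2 * th c0 * bb K i0)) *
        (uu K a j - (c0 + 1/2 + 2 * th c0 * bb K i0)) < 0 := by
    intro a i j ha hij hj
    refine ⟨a, i + 1, ha, by omega, ?_⟩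
    have h1 : mb K i < bb K (i + 1) := by
      have : bb K (i+1) - mb K i = 1 / (4 * K) := by
        unfold bb mb; push_cast; field_simp; ring
      have h2 : 0 < 1 / (4 * (K:ℝ)) := by positivity
      linarith
    have h2 : bb K (i + 1) < mb K j := by
      have : mb K j - bb K (i+1) = (2 * (j - (i + 1)) + 1) / (4 * K) := by
        unfold bb mb; push_cast; field_simp; ring
      have h3 : (i:ℝ) + 1 ≤ j := by exact_mod_cast hij
      have h2 : 0 < (2 * ((j:ℝ) - (i + 1)) + 1) / (4 * K) := by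
        apply div_pos <;> linarith
      linarith
    unfold uu
    rcases th_sq a with h | h
    · rw [h]
      apply mul_neg_of_neg_of_pos <;> linarith
    · rw [h]
      apply mul_neg_of_pos_of_neg <;> linarith
  rcases lt_trichotomy c c' with h | h | h
  · exact step c c' i i' h hc hi hi'
  · subst h
    have hii : i ≠ i' := by
      rintro rfl
      exact hne rfl
    rcases lt_or_gt_of_ne hii with h' | h'
    · exact step2 c i i' hc h' hi'
    · obtain ⟨c0, i0, h1, h2, h3⟩ := step2 c i' i hc h' hi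
      exact ⟨c0, i0, h1, h2, by rw [mul_comm]; exact h3⟩
  · obtain ⟨c0, i0, h1, h2, h3⟩ := step c' c i' i h hc' hi' hi
    exact ⟨c0, i0, h1, h2, by rw [mul_comm]; exact h3⟩

/-! ### Perturbation to pairwise skew lines -/

lemma finite_zeros (A B : Matrix (Fin 4) (Fin 4) ℝ) (hB : B.det ≠ 0) :
    {s : ℝ | (A + s • B).det = 0}.Finite := by
  set p : Polynomial ℝ := Matrix.det ((Polynomial.X : Polynomial ℝ) • B.map Polynomial.C
    + A.map Polynomial.C) with hp
  have hp0 : p ≠ 0 := by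
    intro h
    have h1 := Polynomial.coeff_det_X_add_C_card B A
    rw [← hp, h] at h1
    simp at h1
    exact hB h1.symm
  have heval : ∀ s : ℝ, Polynomial.eval s p = (A + s • B).det := by
    intro s
    rw [hp, ← Polynomial.coe_evalRingHom, RingHom.map_det]
    congr 1
    ext i j
    simp [RingHom.mapMatrix_apply, Matrix.map_apply, Matrix.add_apply, Matrix.smul_apply]
    ring
  apply (Polynomial.finite_setOfPred_isRoot hp0).subset
  intro s hs
  show Polynomial.eval s p = 0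
  rw [heval]
  exact hs

/-- A family of pairwise skew lines. -/
noncomputable def skewLine (i : ℕ) : Line := chart i 0 0 i

lemma skew_det (i j : ℕ) (h : i ≠ j) :
    Matrix.det (Matrix.of ![(skewLine i).1, (skewLine i).2, (skewLine j).1, (skewLine j).2]) ≠ 0 := by
  have h1 := detL_eq (skewLine i).1 (skewLine i).2 (skewLine j)
  unfold detL at h1
  rw [h1]
  have h2 : pr (plucker (skewLine i).1 (skewLine i).2) (skewLine j) = ((i:ℝ) - j)^2 := by
    simp only [skewLine, pr_chart]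
    simp [plucker, chart]
    ring
  rw [h2]
  have : (i:ℝ) - j ≠ 0 := by
    rw [sub_ne_zero]; exact_mod_cast h
  positivity

lemma exists_skew {n : ℕ} (U : Set (Fin n → Line)) (hU : IsOpen U) (L : Fin n → Line) (hL : L ∈ U) :
    ∃ L' ∈ U, ∀ i j, i ≠ j → detL (L' i) (L' j) ≠ 0 := by
  set F : ℝ → (Fin n → Line) := fun s i => L i + s • skewLine i with hF
  have hcont : Continuous F := by
    rw [hF]; fun_prop
  have h0 : F 0 ∈ U := by
    rw [hF]; simpa using hL
  have hnhds : F ⁻¹' U ∈ nhds (0:ℝ) := (hU.preimage hcont).mem_nhds h0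
  obtain ⟨δ, hδ, hball⟩ := Metric.mem_nhds_iff.1 hnhds
  set Z : Set ℝ := ⋃ p ∈ {p : Fin n × Fin n | p.1 ≠ p.2}, {s : ℝ | detL (F s p.1) (F s p.2) = 0}
    with hZ
  have hZfin : Z.Finite := by
    apply Set.Finite.biUnion (Set.toFinite _)
    rintro ⟨i, j⟩ hij
    have hij' : (i:ℕ) ≠ j := fun h => hij (Fin.ext h)
    have h1 := finite_zeros (Matrix.of ![(L i).1, (L i).2, (L j).1, (L j).2])
      (Matrix.of ![(skewLine i).1, (skewLine i).2, (skewLine j).1, (skewLine j).2])
      (skew_det i j hij')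
    apply h1.subset
    intro s hs
    have h2 : detL (F s i) (F s j) = 0 := hs
    show Matrix.det _ = 0
    rw [← h2]
    unfold detL
    congr 1
    ext a b
    fin_cases a <;> simp [hF, Matrix.add_apply]
  have hinf : (Set.Ioo 0 δ).Infinite := Set.Ioo_infinite hδ
  obtain ⟨s, hs, hsZ⟩ := hinf.exists_notMem_finite hZfin
  refine ⟨F s, ?_, ?_⟩
  · apply hball
    rw [Metric.mem_ball, dist_zero_right, Real.norm_of_nonneg hs.1.le]
    exact hs.2
  · intro i j hij h
    apply hsZ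
    rw [hZ]
    simp only [Set.mem_iUnion]
    exact ⟨(i, j), hij, h⟩

/-! ### Main theorem -/

lemma continuous_pr {n : ℕ} (i : Fin n) :
    Continuous (fun z : (Fin n → Line) × EuclideanSpace ℝ (Fin 6) => pr z.2 (z.1 i)) := by
  unfold pr
  fun_prop

lemma continuous_conf (K m : ℕ) (j : Idx K m) : Continuous (fun e : ℝ => conf K m e j) := by
  rcases j with j | j | j
  · exact continuous_const
  · exact continuous_const
  · fin_cases j
    · exact continuous_const
    · simp only [conf]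
      fun_prop
    · simp only [conf]
      fun_prop
    · exact continuous_const

/-- The compact set of unit vectors on the Plücker hypersurface. -/
def KK : Set (EuclideanSpace ℝ (Fin 6)) :=
  {x | ‖x‖ = 1 ∧ x 0 * x 5 - x 1 * x 4 + x 2 * x 3 = 0}

lemma isCompact_KK : IsCompact KK := by
  have h1 : IsCompact (Metric.sphere (0 : EuclideanSpace ℝ (Fin 6)) 1) := isCompact_sphere _ _
  have h2 : IsClosed {x : EuclideanSpace ℝ (Fin 6) | x 0 * x 5 - x 1 * x 4 + x 2 * x 3 = 0} := by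
    apply isClosed_eq
    · fun_prop
    · exact continuous_const
  have h3 : KK = Metric.sphere (0 : EuclideanSpace ℝ (Fin 6)) 1 ∩
      {x : EuclideanSpace ℝ (Fin 6) | x 0 * x 5 - x 1 * x 4 + x 2 * x 3 = 0} := by
    ext x
    simp [KK]
  rw [h3]
  exact h1.inter_right h2

lemma plucker_rel (a b : Fin 4 → ℝ) : plucker a b 0 * plucker a b 5 - plucker a b 1 * plucker a b 4
    + plucker a b 2 * plucker a b 3 = 0 := by
  simp [plucker]
  ring

lemma class_subset {n : ℕ} (L : Fin n → Line) (σ : Fin n → SignType)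
    (x : EuclideanSpace ℝ (Fin 6)) (hx : x ∈ orientationClass L σ) :
    x ∈ KK ∧ ∀ i, 0 ≤ ((σ i : SignType) : ℝ) * pr x (L i) := by
  obtain ⟨h1, a, b, h2, h3⟩ := hx
  refine ⟨⟨h1, ?_⟩, ?_⟩
  · rw [← h2]; exact plucker_rel a b
  · intro i
    rw [← h3 i, detL_eq, h2, sign_mul_self]
    exact abs_nonneg _

/-- The unit vector of a point. -/
noncomputable def upos (K c i : ℕ) : EuclideanSpace ℝ (Fin 6) := ‖pos K c i‖⁻¹ • pos K c i

lemma pos_ne (K c i : ℕ) : pos K c i ≠ 0 := by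
  intro h
  have h1 : pos K c i 0 = 1 := by simp [pos, plucker]
  rw [h] at h1
  simp at h1

lemma pr_smul (s : ℝ) (x : EuclideanSpace ℝ (Fin 6)) (l : Line) : pr (s • x) l = s * pr x l := by
  simp [pr]
  ring

lemma upos_mem {n : ℕ} (L : Fin n → Line) (σ : Fin n → SignType) (K c i : ℕ)
    (h : ∀ j, 0 < ((σ j : SignType) : ℝ) * pr (upos K c i) (L j)) :
    upos K c i ∈ orientationClass L σ := by
  have hn : 0 < ‖pos K c i‖ := norm_pos_iff.2 (pos_ne K c i)
  refine ⟨?_, ‖pos K c i‖⁻¹ • ![1, 0, 0, (uu K c i + mb K i)/2],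
    ![0, 1, (uu K c i - mb K i)/2, tt K c i], ?_, ?_⟩
  · rw [upos, norm_smul, norm_inv, norm_norm]
    field_simp
  · rw [upos, pos]
    generalize ‖plucker ![1, 0, 0, (uu K c i + mb K i)/2]
      ![0, 1, (uu K c i - mb K i)/2, tt K c i]‖⁻¹ = s
    ext j
    fin_cases j <;> simp [plucker] <;> ring
  · intro j
    rw [detL_eq]
    have hp : plucker (‖pos K c i‖⁻¹ • ![1, 0, 0, (uu K c i + mb K i)/2])
        ![0, 1, (uu K c i - mb K i)/2, tt K c i] = upos K c i := by
      rw [upos, pos]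
      generalize ‖plucker ![1, 0, 0, (uu K c i + mb K i)/2]
        ![0, 1, (uu K c i - mb K i)/2, tt K c i]‖⁻¹ = s
      ext j
      fin_cases j <;> simp [plucker] <;> ring
    rw [hp]
    have hj := h j
    rcases hσ : σ j with _ | _ | _
    · rw [hσ] at hj; simp at hj
    · rw [hσ] at hj
      have : pr (upos K c i) (L j) < 0 := by simpa using hj
      exact sign_neg this
    · rw [hσ] at hj
      have : 0 < pr (upos K c i) (L j) := by simpa using hj
      exact sign_pos this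

/-- For every `n ≥ 8` there are signs `σ` and a nonempty open set of `n`-tuples of pairwise skew
oriented lines whose orientation class has at least `⌊(n-6)²/4⌋` isotopy classes. -/
theorem result : ∀ n : ℕ, 8 ≤ n → ∃ (σ : Fin n → SignType) (U : Set (Fin n → Line)),
    (∀ i, σ i ≠ 0) ∧ IsOpen U ∧ U.Nonempty ∧ ∀ L ∈ U,
      (∀ i j, i ≠ j → detL (L i) (L j) ≠ 0) ∧
      (((n - 6) ^ 2 / 4 : ℕ) : ℕ∞) ≤ ENat.card (ConnectedComponents (orientationClass L σ)) := by
  intro n hn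
  obtain ⟨K, m, hK, hm, hnKm, hcount⟩ : ∃ K m : ℕ, 1 ≤ K ∧ 1 ≤ m ∧ n = K + m + 6 ∧
      (n - 6) ^ 2 / 4 ≤ m * K := by
    refine ⟨(n - 6) / 2, (n - 6) - (n - 6) / 2, by omega, by omega, by omega, ?_⟩
    obtain ⟨a, ha⟩ : ∃ a, n - 6 = a := ⟨_, rfl⟩
    rw [ha]
    rcases Nat.even_or_odd a with ⟨b, hb⟩ | ⟨b, hb⟩
    · have h1 : a / 2 = b := by omega
      have h2 : a - b = b := by omega
      rw [h1, h2, hb]
      apply Nat.div_le_of_le_mul
      nlinarith
    · have h1 : a / 2 = b := by omega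
      have h2 : a - b = b + 1 := by omega
      rw [h1, h2, hb]
      have h3 : (2 * b + 1)^2 = 4 * ((b + 1) * b) + 1 := by ring
      rw [h3]
      omega
  have hcard : Fintype.card (Fin n) = Fintype.card (Idx K m) := by
    simp only [Fintype.card_fin, Fintype.card_sum]
    omega
  let eqv : Fin n ≃ Idx K m := Fintype.equivOfCardEq hcard
  set σ : Fin n → SignType := fun i => sg K m (eqv i) with hσ
  -- the neighbourhood
  have hV : ∀ w : Fin m × Fin (K + 1), ∃ V : Set (Fin n → Line), IsOpen V ∧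
      (fun i => conf K m 0 (eqv i)) ∈ V ∧ ∀ L ∈ V, ∀ x ∈ KK,
        (L, x) ∉ {z : (Fin n → Line) × EuclideanSpace ℝ (Fin 6) |
          (∀ i, 0 ≤ ((σ i : SignType) : ℝ) * pr z.2 (z.1 i)) ∧
          wl ((w.1 : ℕ) + 1/2 + 2 * th w.1 * bb K w.2) z.2 = 0} := by
    intro w
    apply nhds_of_compact KK isCompact_KK
    · rw [show {z : (Fin n → Line) × EuclideanSpace ℝ (Fin 6) |
          (∀ i, 0 ≤ ((σ i : SignType) : ℝ) * pr z.2 (z.1 i)) ∧
          wl ((w.1 : ℕ) + 1/2 + 2 * th w.1 * bb K w.2) z.2 = 0} =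
          (⋂ i, {z : (Fin n → Line) × EuclideanSpace ℝ (Fin 6) | 0 ≤ ((σ i : SignType) : ℝ) *
            pr z.2 (z.1 i)}) ∩ {z : (Fin n → Line) × EuclideanSpace ℝ (Fin 6) |
              wl ((w.1 : ℕ) + 1/2 + 2 * th w.1 * bb K w.2) z.2 = 0} by
            ext z; simp only [Set.mem_ofPred_eq, Set.mem_inter_iff, Set.mem_iInter]]
      apply IsClosed.inter
      · apply isClosed_iInter
        intro i
        exact isClosed_le continuous_const (continuous_const.mul (continuous_pr i))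
      · apply isClosed_eq
        · unfold wl; fun_prop
        · exact continuous_const
    · rintro x ⟨hx1, hx2⟩ ⟨hx3, hx4⟩
      apply wall_empty K m hK w.1 (by omega) w.2 (by omega) x hx1 hx2 ?_ hx4
      intro j
      have := hx3 (eqv.symm j)
      simp only [hσ, Equiv.apply_symm_apply] at this
      exact this
  choose V hVo hV0 hVw using hV
  have hVo' : IsOpen (⋂ w, V w) := isOpen_iInter_of_finite hVo
  have hcont : Continuous (fun e : ℝ => (fun i => conf K m e (eqv i) : Fin n → Line)) :=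
    continuous_pi (fun i => continuous_conf K m (eqv i))
  have hpre : (fun e : ℝ => (fun i => conf K m e (eqv i) : Fin n → Line)) ⁻¹' (⋂ w, V w)
      ∈ nhds (0:ℝ) := (hVo'.preimage hcont).mem_nhds (Set.mem_iInter.2 hV0)
  obtain ⟨δ, hδ, hball⟩ := Metric.mem_nhds_iff.1 hpre
  have he : (fun i => conf K m (δ/2) (eqv i) : Fin n → Line) ∈ ⋂ w, V w := by
    apply hball
    rw [Metric.mem_ball, dist_zero_right, Real.norm_of_nonneg (by positivity)]
    linarith
  -- the open set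
  set U1 : Set (Fin n → Line) := (⋂ w, V w) ∩ ⋂ (j : Fin m × Fin K), ⋂ (i : Fin n),
    {L | 0 < ((σ i : SignType) : ℝ) * pr (upos K j.1 j.2) (L i)} with hU1
  have hU1o : IsOpen U1 := by
    apply hVo'.inter
    apply isOpen_iInter_of_finite
    intro j
    apply isOpen_iInter_of_finite
    intro i
    apply isOpen_lt continuous_const
    apply continuous_const.mul
    exact (continuous_pr i).comp (continuous_id.prodMk continuous_const)
  have hU1n : (fun i => conf K m (δ/2) (eqv i) : Fin n → Line) ∈ U1 := by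
    refine ⟨he, ?_⟩
    simp only [Set.mem_iInter]
    intro j i
    have h1 := pos_strict K m hK j.1 j.2 j.1.2 j.2.2 (δ/2) (by positivity) (eqv i)
    have h2 : 0 < ‖pos K j.1 j.2‖⁻¹ := inv_pos.2 (norm_pos_iff.2 (pos_ne K _ _))
    show 0 < ((sg K m (eqv i) : SignType) : ℝ) * pr (‖pos K j.1 j.2‖⁻¹ • pos K j.1 j.2)
      (conf K m (δ/2) (eqv i))
    rw [pr_smul, ← mul_assoc, mul_comm _ (‖pos K j.1 j.2‖⁻¹), mul_assoc]
    exact mul_pos h2 h1
  refine ⟨σ, U1 ∩ {L | ∀ i j, i ≠ j → detL (L i) (L j) ≠ 0}, fun i => sg_ne K m _, ?_, ?_, ?_⟩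
  · apply hU1o.inter
    rw [show {L : Fin n → Line | ∀ i j, i ≠ j → detL (L i) (L j) ≠ 0}
      = ⋂ i, ⋂ j, {L | i ≠ j → detL (L i) (L j) ≠ 0} by ext L; simp]
    apply isOpen_iInter_of_finite
    intro i
    apply isOpen_iInter_of_finite
    intro j
    by_cases hij : i = j
    · simp [hij]
    · simp only [ne_eq, hij, not_false_eq_true, forall_const]
      apply isOpen_ne_fun _ continuous_const
      unfold detL
      apply Continuous.matrix_det
      apply continuous_matrix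
      intro a b
      fin_cases a <;> simp <;> fun_prop
  · obtain ⟨L', hL', hskew⟩ := exists_skew U1 hU1o _ hU1n
    exact ⟨L', hL', hskew⟩
  · rintro L ⟨⟨hLV, hLs⟩, hskew⟩
    refine ⟨hskew, ?_⟩
    simp only [Set.mem_iInter] at hLs hLV
    have hmem : ∀ j : Fin m × Fin K, upos K j.1 j.2 ∈ orientationClass L σ := by
      intro j
      exact upos_mem L σ K j.1 j.2 (fun i => hLs j i)
    have hinj : Function.Injective (fun j : Fin m × Fin K =>
        (ConnectedComponents.mk (⟨upos K j.1 j.2, hmem j⟩ : orientationClass L σ) :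
          ConnectedComponents (orientationClass L σ))) := by
      intro j j' hjj
      by_contra hne
      obtain ⟨c0, i0, hc0, hi0, hprod⟩ := exists_wall K m hK j.1 j.2 j'.1 j'.2 j.1.2 j.2.2
        j'.1.2 j'.2.2 (by
          intro h
          apply hne
          rw [Prod.mk.injEq] at h
          exact Prod.ext (Fin.ext h.1) (Fin.ext h.2))
      set w : ℝ := c0 + 1/2 + 2 * th c0 * bb K i0 with hw
      have hwc : Continuous (wl w) := by unfold wl; fun_prop
      have hw0 : ∀ x ∈ orientationClass L σ, wl w x ≠ 0 := by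
        intro x hx hx0
        obtain ⟨h1, h2⟩ := class_subset L σ x hx
        exact hVw (⟨c0, hc0⟩, ⟨i0, by omega⟩) L (hLV _) x h1 ⟨h2, hx0⟩
      have hval : ∀ c i : ℕ, wl w (upos K c i) = ‖pos K c i‖⁻¹ * (uu K c i - w) := by
        intro c i
        simp only [wl, upos, pos, plucker]
        simp
        ring
      have hpn : ∀ c i : ℕ, 0 < ‖pos K c i‖⁻¹ := fun c i =>
        inv_pos.2 (norm_pos_iff.2 (pos_ne K _ _))
      rcases mul_neg_iff.1 hprod with ⟨h1, h2⟩ | ⟨h1, h2⟩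
      · apply components_ne (wl w) hwc hw0 ⟨upos K j'.1 j'.2, hmem j'⟩ ⟨upos K j.1 j.2, hmem j⟩
          ?_ ?_ hjj.symm
        · show wl w (upos K j'.1 j'.2) < 0
          rw [hval]
          exact mul_neg_of_pos_of_neg (hpn _ _) h2
        · show 0 < wl w (upos K j.1 j.2)
          rw [hval]
          exact mul_pos (hpn _ _) h1
      · apply components_ne (wl w) hwc hw0 ⟨upos K j.1 j.2, hmem j⟩ ⟨upos K j'.1 j'.2, hmem j'⟩
          ?_ ?_ hjj
        · show wl w (upos K j.1 j.2) < 0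
          rw [hval]
          exact mul_neg_of_pos_of_neg (hpn _ _) h1
        · show 0 < wl w (upos K j'.1 j'.2)
          rw [hval]
          exact mul_pos (hpn _ _) h2
    have h1 := ENat.card_le_card_of_injective hinj
    have h2 : ENat.card (Fin m × Fin K) = ((m * K : ℕ) : ℕ∞) := by
      rw [ENat.card_eq_coe_fintype_card]; simp
    rw [h2] at h1
    exact le_trans (by exact_mod_cast hcount) h1

end Pool.Agent.Results.MP_59c536_co.QuadraticClasses
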